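import Pool.Agent.Work.MP_c2bb60_gt.Cone

set_option autoImplicit false

namespace Pool.Agent.Results.MP_c2bb60_gt.ConicalAtAllScales

/-- The closed ball of radius `s` about `v` is conical at its centre: for `y`, `z` in it,
the midpoint `m` of `v`, `y` and the midpoint `n` of `v`, `z` satisfy
`dist m n = dist y z / 2` (contraction by the factor one half toward `v` is a similarity). -/
def ConicalBall {X : Type} [MetricSpace X] (v : X) (s : ℝ) : Prop :=
  ∀ y z m n : X, dist v y ≤ s → dist v z ≤ s →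
    (dist v m = dist v y / 2 ∧ dist m y = dist v y / 2) →
    (dist v n = dist v z / 2 ∧ dist n z = dist v z / 2) →
    dist m n = dist y z / 2

/-- Closed convex hulls of compact sets are compact in every complete CAT(0) space (not
necessarily locally compact) that is conical at all small scales: for every bounded region and
every `ε > 0` there is `σ > 0` such that each point `x` of the region has a centre `v` and a
radius `s` with `σ ≤ s ≤ ε`, `dist x v ≤ ε * s ^ 2` and the ball of radius `s` about `v`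
conical. -/
theorem result (X : Type) [MetricSpace X] [CompleteSpace X]
    (hCAT : ∀ x y : X, ∃ m : X, ∀ z : X,
      dist z m ^ 2 + dist x y ^ 2 / 4 ≤ (dist z x ^ 2 + dist z y ^ 2) / 2)
    (hcone : ∀ (o : X) (R ε : ℝ), 0 < ε → ∃ σ > 0, ∀ x : X, dist x o ≤ R →
      ∃ v : X, ∃ s : ℝ, σ ≤ s ∧ s ≤ ε ∧ dist x v ≤ ε * s ^ 2 ∧ ConicalBall v s) :
    ∀ K : Set X, IsCompact K →
      IsCompact (⋂₀ {C : Set X | IsClosed C ∧ K ⊆ C ∧
        ∀ x ∈ C, ∀ y ∈ C, ∀ γ : ℝ → X, γ 0 = x → γ (dist x y) = y →
          (∀ s ∈ Set.Icc (0:ℝ) (dist x y), ∀ t ∈ Set.Icc (0:ℝ) (dist x y),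
            dist (γ s) (γ t) = |s - t|) →
          ∀ t ∈ Set.Icc (0:ℝ) (dist x y), γ t ∈ C}) := by
  intro K hK
  exact Pool.Agent.Work.MP_c2bb60_gt.final hCAT hK (fun h =>
    Pool.Agent.Work.MP_c2bb60_gt.hypE_of_conical hCAT hcone hK h)

end Pool.Agent.Results.MP_c2bb60_gt.ConicalAtAllScales
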