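import Pool.Agent.Work.MP_c2bb60_gt.Hyp

set_option autoImplicit false

namespace Pool.Agent.Results.MP_c2bb60_gt.CurvatureBoundedBelow

/-- Closed convex hulls of compact sets are compact in every complete, geodesically complete
CAT(0) space whose curvature is bounded below on bounded sets (no local compactness assumed).

* `hCAT` is the CAT(0) condition (midpoint CN inequality), as in the frozen statement;
* `hext` says that geodesic segments can be prolonged to any length;
* `hlow` says that on every bounded set the curvature is bounded below: for some `κ, δ > 0`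
  all triangles of size at most `δ` based there satisfy the point-on-a-side comparison with
  the hyperbolic plane of curvature `-κ ^ 2` (the displayed inequality, which is an equality in
  that plane). -/
theorem result (X : Type) [MetricSpace X] [CompleteSpace X]
    (hCAT : ∀ x y : X, ∃ m : X, ∀ z : X,
      dist z m ^ 2 + dist x y ^ 2 / 4 ≤ (dist z x ^ 2 + dist z y ^ 2) / 2)
    (hext : ∀ x w : X, x ≠ w → ∀ r : ℝ, dist x w ≤ r →
      ∃ w' : X, dist x w' = r ∧ dist w w' = r - dist x w)
    (hlow : ∀ (o : X) (R : ℝ), ∃ κ > 0, ∃ δ > 0, ∀ x y z p : X, ∀ a : ℝ, dist z o ≤ R →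
      dist z x ≤ δ → dist z y ≤ δ → 0 ≤ a → a ≤ 1 →
      dist x p = a * dist x y → dist p y = (1 - a) * dist x y →
      Real.sinh (κ * ((1 - a) * dist x y)) * Real.cosh (κ * dist z x)
        + Real.sinh (κ * (a * dist x y)) * Real.cosh (κ * dist z y)
        ≤ Real.sinh (κ * dist x y) * Real.cosh (κ * dist z p)) :
    ∀ K : Set X, IsCompact K →
      IsCompact (⋂₀ {C : Set X | IsClosed C ∧ K ⊆ C ∧
        ∀ x ∈ C, ∀ y ∈ C, ∀ γ : ℝ → X, γ 0 = x → γ (dist x y) = y →
          (∀ s ∈ Set.Icc (0:ℝ) (dist x y), ∀ t ∈ Set.Icc (0:ℝ) (dist x y),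
            dist (γ s) (γ t) = |s - t|) →
          ∀ t ∈ Set.Icc (0:ℝ) (dist x y), γ t ∈ C}) := by
  intro K hK
  exact Pool.Agent.Work.MP_c2bb60_gt.final hCAT hK (fun h =>
    Pool.Agent.Work.MP_c2bb60_gt.hypE_of_low hCAT hext
      (Pool.Agent.Work.MP_c2bb60_gt.lowO_of_hyp hlow) hK h)

end Pool.Agent.Results.MP_c2bb60_gt.CurvatureBoundedBelow
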